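import Pool.Agent.Run7.h354.BE.Stm3

set_option autoImplicit false
set_option linter.unusedSectionVars false
set_option linter.unusedVariables false

open CategoryTheory CategoryTheory.Limits Pretriangulated Triangulated Complex ZeroObject
open Pool.Agent.Helper445_GMF Run7.h354.BE

namespace Run7.h253.BE

universe w v u

theorem p_DH : S_DH.{w, v, u} := by
  intro A _ _ _ τ T _ _ _ a b f X hX n
  let K := DerivedCategory.Q.objPreimage X
  let e : DerivedCategory.Q.obj K ≅ X := DerivedCategory.Q.objObjPreimageIso X
  -- the action is zero on `Q.obj K`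
  have h1 : (T.der.Φ.map f).app (DerivedCategory.Q.obj K) = 0 := by
    have h := (T.der.Φ.map f).naturality e.hom
    rw [hX, comp_zero] at h
    rw [← cancel_mono ((T.der.Φ.obj b).map e.hom), zero_comp]
    exact h.symm
  have h2 : DerivedCategory.Q.map ((T.cx.Φ.map f).app K) = 0 := by
    have h := T.der_map_app f K
    have h0 : (T.Φ.obj a).mapDerivedCategoryFactors.hom.app K ≫
        DerivedCategory.Q.map ((T.cx.Φ.map f).app K) = 0 :=
      h.symm.trans ((congrArg (fun t => t ≫
        (T.Φ.obj b).mapDerivedCategoryFactors.hom.app K) h1).trans zero_comp)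
    exact (cancel_epi ((T.Φ.obj a).mapDerivedCategoryFactors.hom.app K)).1
      (h0.trans comp_zero.symm)
  have h3 : HomologicalComplex.homologyMap ((T.cx.Φ.map f).app K) n = 0 := by
    have h := (DerivedCategory.homologyFunctorFactors A n).hom.naturality ((T.cx.Φ.map f).app K)
    rw [Functor.comp_map, h2, Functor.map_zero, zero_comp] at h
    exact (cancel_epi ((DerivedCategory.homologyFunctorFactors A n).hom.app _)).1
      (h.symm.trans comp_zero.symm)
  have h4 : (T.Φ.map f).app (K.homology n) = 0 := by
    have h := NatTrans.app_homology (T.Φ.map f) (K.sc n)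
    have h5 : ShortComplex.homologyMap ((K.sc n).mapNatTrans (T.Φ.map f)) = 0 := h3
    rw [h5, zero_comp, comp_zero] at h
    exact h
  let e' : K.homology n ≅ (DerivedCategory.homologyFunctor A n).obj X :=
    ((DerivedCategory.homologyFunctorFactors A n).app K).symm ≪≫
      (DerivedCategory.homologyFunctor A n).mapIso e
  have h6 := (T.Φ.map f).naturality e'.hom
  rw [h4, zero_comp] at h6
  rw [← cancel_epi ((T.Φ.obj a).map e'.hom), comp_zero]
  exact h6

end Run7.h253.BE
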