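import Pool.Agent.Run7.h253.BE.EAR
import Pool.Agent.Run7.h253.BE.DH

set_option autoImplicit false
set_option linter.unusedSectionVars false
set_option linter.unusedVariables false

open CategoryTheory CategoryTheory.Limits Pretriangulated Triangulated Complex ZeroObject
open Pool.Agent.Helper445_GMF Run7.h354.BE

namespace Run7.h253.BE

universe w v u v' u'

section bip

variable {C : Type u} [Category.{v} C] [Preadditive C] [HasBinaryBiproducts C]
  {D : Type u'} [Category.{v'} D] [Preadditive D] [HasBinaryBiproducts D] (F : C ⥤ D) [F.Additive]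

/-- transport of sums along isomorphisms to values of a functor -/
noncomputable def bi {Y Z : D} {Y' Z' : C} (eY : Y ≅ F.obj Y') (eZ : Z ≅ F.obj Z') :
    Y ⊞ Z ≅ F.obj (Y' ⊞ Z') := biprod.mapIso eY eZ ≪≫ (bip F Y' Z').symm

theorem bi_lift {X Y Z : D} {X' Y' Z' : C} {p : X ⟶ Y} {q : X ⟶ Z} {p' : X' ⟶ Y'} {q' : X' ⟶ Z'}
    {e : X ⟶ F.obj X'} {eY : Y ≅ F.obj Y'} {eZ : Z ≅ F.obj Z'}
    (hp : p ≫ eY.hom = e ≫ F.map p') (hq : q ≫ eZ.hom = e ≫ F.map q') :
    biprod.lift p q ≫ (bi F eY eZ).hom = e ≫ F.map (biprod.lift p' q') := by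
  unfold bi
  rw [Iso.trans_hom, Iso.symm_hom, ← Category.assoc, Iso.comp_inv_eq, Category.assoc, bip_lift,
    biprod.mapIso_hom]
  apply biprod.hom_ext
  · rw [Category.assoc, Category.assoc, biprod.map_fst, biprod.lift_fst, biprod.lift_fst_assoc, hp]
  · rw [Category.assoc, Category.assoc, biprod.map_snd, biprod.lift_snd, biprod.lift_snd_assoc, hq]

theorem bi_desc {X Y Z : D} {X' Y' Z' : C} {p : Y ⟶ X} {q : Z ⟶ X} {p' : Y' ⟶ X'} {q' : Z' ⟶ X'}
    {e : X ⟶ F.obj X'} {eY : Y ≅ F.obj Y'} {eZ : Z ≅ F.obj Z'}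
    (hp : p ≫ e = eY.hom ≫ F.map p') (hq : q ≫ e = eZ.hom ≫ F.map q') :
    biprod.desc p q ≫ e = (bi F eY eZ).hom ≫ F.map (biprod.desc p' q') := by
  unfold bi
  rw [Iso.trans_hom, Iso.symm_hom, Category.assoc, ← bip_desc, Iso.inv_hom_id_assoc,
    biprod.mapIso_hom]
  apply biprod.hom_ext'
  · rw [biprod.inl_desc_assoc, biprod.inl_map_assoc, biprod.inl_desc, hp]
  · rw [biprod.inr_desc_assoc, biprod.inr_map_assoc, biprod.inr_desc, hq]

end bip

theorem dist_of_iso' {C : Type u} [Category.{v} C] [Preadditive C] [HasZeroObject C]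
    [HasShift C ℤ] [∀ n : ℤ, (shiftFunctor C n).Additive] [Pretriangulated C]
    {X₁ X₂ X₃ T₁ T₂ T₃ : C} (g' : X₂ ⟶ X₃) (f : T₁ ⟶ T₂)
    (g : T₂ ⟶ T₃) (h : T₃ ⟶ T₁⟦(1 : ℤ)⟧) (hT : Triangle.mk f g h ∈ distTriang C)
    (e₁ : X₁ ≅ T₁) (e₂ : X₂ ≅ T₂) (e₃ : X₃ ≅ T₃)
    (h2 : g' ≫ e₃.hom = e₂.hom ≫ g) :
    ∃ (f' : X₁ ⟶ X₂) (h' : X₃ ⟶ X₁⟦(1 : ℤ)⟧), Triangle.mk f' g' h' ∈ distTriang C :=
  ⟨e₁.hom ≫ f ≫ e₂.inv, dist_of_iso _ _ f g h hT e₁ e₂ e₃ (by
    rw [Category.assoc, Category.assoc, e₂.inv_hom_id, Category.comp_id]) h2⟩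

theorem zero_of_iso {C : Type u} [Category.{v} C] {D : Type u'} [Category.{v'} D]
    [HasZeroMorphisms D] {F G : C ⥤ D} (n : F ⟶ G) {X Y : C} (e : X ≅ Y) (h : n.app X = 0) :
    n.app Y = 0 := by
  have h1 := n.naturality e.hom
  rw [h, zero_comp] at h1
  rw [← cancel_epi (F.map e.hom), comp_zero]
  exact h1

section

variable {τ : ℂ} {A : Type u} [Category.{v} A] [Abelian A] [HasDerivedCategory.{w} A] (T : TA τ A)
  [hadd : ∀ a, (T.Φ.obj a).Additive] [hl : ∀ a, PreservesFiniteLimits (T.Φ.obj a)]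
  [hr : ∀ a, PreservesFiniteColimits (T.Φ.obj a)]

theorem cx_kos0 (h : Kos0 T) : Kos0 T.cx := by
  intro M a b f g hf hg hz h1 h2
  rw [IsZero.iff_id_eq_zero]
  refine HomologicalComplex.hom_ext _ _ fun i => ?_
  have h3 : (T.Φ.map (gm f hf)).app (M.X i) = 0 :=
    congrArg (fun t => HomologicalComplex.Hom.f t i) h1
  have h4 : (T.Φ.map (gm g hg)).app (M.X i) = 0 :=
    congrArg (fun t => HomologicalComplex.Hom.f t i) h2
  exact (h (M.X i) a b f g hf hg hz h3 h4).eq_of_src _ _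

/-- the comparison isomorphism at an object isomorphic to `Q.obj K` -/
noncomputable def cI {G : DerivedCategory A} {K : CochainComplex A ℤ}
    (e : DerivedCategory.Q.obj K ≅ G) (a : Gr τ) :
    (T.der.Φ.obj a).obj G ≅ DerivedCategory.Q.obj ((T.cx.Φ.obj a).obj K) :=
  (T.der.Φ.obj a).mapIso e.symm ≪≫ (T.Φ.obj a).mapDerivedCategoryFactors.app K

theorem cI_nat {G : DerivedCategory A} {K : CochainComplex A ℤ}
    (e : DerivedCategory.Q.obj K ≅ G) {a b : Gr τ} (f : a ⟶ b) :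
    (T.der.Φ.map f).app G ≫ (cI T e b).hom =
      (cI T e a).hom ≫ DerivedCategory.Q.map ((T.cx.Φ.map f).app K) := by
  have h := T.der_map_app f K
  have h2 := (T.der.Φ.map f).naturality e.inv
  change _ ≫ ((T.der.Φ.obj b).map e.inv ≫ (T.Φ.obj b).mapDerivedCategoryFactors.hom.app K) =
    ((T.der.Φ.obj a).map e.inv ≫ (T.Φ.obj a).mapDerivedCategoryFactors.hom.app K) ≫ _
  refine (Category.assoc _ _ _).symm.trans ?_
  rw [← h2]
  refine (Category.assoc _ _ _).trans ?_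
  refine (congrArg (fun t => (T.der.Φ.obj a).map e.inv ≫ t) h).trans ?_
  exact (Category.assoc _ _ _).symm

theorem der_iso {a b : Gr τ} (g : a ⟶ b) (G : DerivedCategory A) {K : CochainComplex A ℤ}
    (e : DerivedCategory.Q.obj K ≅ G) (h : ∀ n, IsIso ((T.Φ.map g).app (K.homology n))) :
    IsIso ((T.der.Φ.map g).app G) := by
  have h1 : ∀ n, IsIso (HomologicalComplex.homologyMap ((T.cx.Φ.map g).app K) n) := by
    intro n
    have h3 := NatTrans.app_homology (T.Φ.map g) (K.sc n)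
    have h2 : IsIso ((T.Φ.map g).app (K.sc n).homology) := h n
    have h4 : IsIso (ShortComplex.homologyMap ((K.sc n).mapNatTrans (T.Φ.map g))) := by
      have h5 : ShortComplex.homologyMap ((K.sc n).mapNatTrans (T.Φ.map g)) =
          ((K.sc n).mapHomologyIso (T.Φ.obj a)).hom ≫ (T.Φ.map g).app (K.sc n).homology ≫
            ((K.sc n).mapHomologyIso (T.Φ.obj b)).inv := by
        rw [← Iso.inv_comp_eq, Iso.eq_comp_inv, Category.assoc]
        exact h3.symm
      rw [h5]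
      infer_instance
    exact h4
  have h2 : QuasiIso ((T.cx.Φ.map g).app K) := by
    refine ⟨fun n => ?_⟩
    rw [quasiIsoAt_iff_isIso_homologyMap]
    exact h1 n
  have h3 : IsIso (DerivedCategory.Q.map ((T.cx.Φ.map g).app K)) := inferInstance
  have h4 : IsIso ((cI T e a).hom ≫ DerivedCategory.Q.map ((T.cx.Φ.map g).app K)) := inferInstance
  rw [← cI_nat] at h4
  exact IsIso.of_isIso_comp_right _ (cI T e b).hom

end

theorem cx_lin {τ : ℂ} {A : Type u} [Category.{v} A] [Preadditive A] [Linear ℂ A]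
    [HasZeroObject A] (T : TA τ A) [hadd : ∀ a, (T.Φ.obj a).Additive]
    (hlin : ∀ {a b : Gr τ} (r : ℂ) (f g : a ⟶ b),
      T.Φ.map (r • f + g) = r • T.Φ.map f + T.Φ.map g) {a b : Gr τ} (r : ℂ) (f g : a ⟶ b) :
    T.cx.Φ.map (r • f + g) = r • T.cx.Φ.map f + T.cx.Φ.map g := by
  refine NatTrans.ext (funext fun K => HomologicalComplex.hom_ext _ _ fun i => ?_)
  exact congrArg (fun t => NatTrans.app t (K.X i)) (hlin r f g)

theorem der_lin {τ : ℂ} {A : Type u} [Category.{v} A] [Abelian A] [Linear ℂ A]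
    [HasDerivedCategory.{w} A] (T : TA τ A)
    [hadd : ∀ a, (T.Φ.obj a).Additive] [hl : ∀ a, PreservesFiniteLimits (T.Φ.obj a)]
    [hr : ∀ a, PreservesFiniteColimits (T.Φ.obj a)]
    (hlin : ∀ {a b : Gr τ} (r : ℂ) (f g : a ⟶ b),
      T.Φ.map (r • f + g) = r • T.Φ.map f + T.Φ.map g) {a b : Gr τ} (r : ℂ) (f g : a ⟶ b) :
    T.der.Φ.map (r • f + g) = r • T.der.Φ.map f + T.der.Φ.map g := by
  refine Localization.natTrans_ext DerivedCategory.Q (HomologicalComplex.quasiIso A (.up ℤ))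
    fun K => ?_
  have h1 := cI_nat T (Iso.refl (DerivedCategory.Q.obj K)) (r • f + g)
  have h2 := cI_nat T (Iso.refl (DerivedCategory.Q.obj K)) f
  have h3 := cI_nat T (Iso.refl (DerivedCategory.Q.obj K)) g
  rw [cx_lin T hlin] at h1
  rw [← cancel_mono (cI T (Iso.refl (DerivedCategory.Q.obj K)) b).hom]
  refine h1.trans ?_
  change _ ≫ DerivedCategory.Q.map (r • (T.cx.Φ.map f).app K + (T.cx.Φ.map g).app K) =
    (r • (T.der.Φ.map f).app _ + (T.der.Φ.map g).app _) ≫ _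
  rw [Functor.map_add, Functor.map_smul, Preadditive.comp_add, Linear.comp_smul,
    Preadditive.add_comp, Linear.smul_comp, h2, h3]

theorem p_EAD (K1 : S_KEX.{v, max u v}) (K2 : S_KEX.{v, u}) : S_EAD.{w, v, u} := by
  intro A _ _ _ _ τ T hadd hl hr hlin hK0
  have k1 := K1 (CochainComplex A ℤ) τ T.cx (cx_lin T hlin)
    (fun a => inferInstanceAs (PreservesFiniteLimits ((T.Φ.obj a).mapHomologicalComplex (.up ℤ))))
    (fun a => inferInstanceAs (PreservesFiniteColimits ((T.Φ.obj a).mapHomologicalComplex (.up ℤ))))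
    (cx_kos0 T hK0)
  refine ⟨{
    Φ := T.der.Φ
    lin := der_lin T hlin
    add := fun a => inferInstanceAs (T.Φ.obj a).mapDerivedCategory.Additive
    tri := ?_
    comp := T.der.comp
    comp_nat := T.der.comp_nat
    zero := T.der.zero
    kt := ?_
    hb := ?_
    kos := ?_ }, rfl⟩
  · intro a t ht
    exact ⟨_, (T.Φ.obj a).mapDerivedCategory.map_distinguished t ht⟩
  · intro G a γ δ f g hf hg hfg hf1 hg1 hf2 hg2
    let e := DerivedCategory.Q.objObjPreimageIso G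
    obtain ⟨h0, h⟩ := (k1 (DerivedCategory.Q.objPreimage G)).1 a γ δ f g hf hg hfg hf1 hg1 hf2 hg2
    refine dist_of_iso _ _ _ _ _ (DerivedCategory.triangleOfSES_distinguished h)
      (cI T e _) (bi DerivedCategory.Q (cI T e _) (cI T e _)) (cI T e _) ?_ ?_
    · exact bi_lift _ (cI_nat T e _) (cI_nat T e _)
    · refine bi_desc _ (cI_nat T e _) ?_
      rw [Preadditive.neg_comp, cI_nat T e _, Functor.map_neg, Preadditive.comp_neg]
  · intro G a γ₁ γ₂ δ u₁ u₂ w₁ w₂ hu₁ hu₂ hw₁ hw₂ hz h1 h2 h3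
    let e := DerivedCategory.Q.objObjPreimageIso G
    have q1 : a - (a - γ₁) = γ₁ := by abel
    have q2 : a - (a - γ₂) = γ₂ := by abel
    have q3 : a + δ - γ₁ - γ₂ - (a - γ₁) = δ - γ₂ := by abel
    have q4 : a + δ - γ₁ - γ₂ - (a - γ₂) = δ - γ₁ := by abel
    obtain ⟨h0, h⟩ := (k1 (DerivedCategory.Q.objPreimage G)).2.1 a γ₁ γ₂ δ u₁ u₂ w₁ w₂ hu₁ hu₂ hw₁
      hw₂ hz h1 h2 h3 (by rw [q1]; exact hu₁) (by rw [q2]; exact hu₂) (by rw [q3]; exact hw₁)
      (by rw [q4]; exact hw₂)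
    exact dist_of_iso' _ _ _ _ (DerivedCategory.triangleOfSES_distinguished h)
      (bi DerivedCategory.Q (cI T e ⟨a - γ₁⟩) (cI T e ⟨a - γ₂⟩))
      (bi DerivedCategory.Q (bi DerivedCategory.Q (cI T e ⟨a⟩) (cI T e ⟨a⟩))
        (cI T e ⟨a + δ - γ₁ - γ₂⟩)) (cI T e _)
      (bi_desc _ (bi_desc _ (cI_nat T e _) (cI_nat T e _)) (cI_nat T e _))
  · intro G a b f g hf hg hfg h0
    let K := DerivedCategory.Q.objPreimage G
    let e : DerivedCategory.Q.obj K ≅ G := DerivedCategory.Q.objObjPreimageIso G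
    refine der_iso T _ G e fun n => ?_
    refine (K2 A τ T hlin hl hr hK0 (K.homology n)).2.2 a b f g hf hg hfg ?_
    refine zero_of_iso _ ?_ (p_DH A τ T _ _ (gm f hf) G h0 n)
    exact (DerivedCategory.homologyFunctor A n).mapIso e.symm ≪≫
      (DerivedCategory.homologyFunctorFactors A n).app K

end Run7.h253.BE
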