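import Pool.Agent.Run7.h354.BE.Stm3

set_option autoImplicit false
set_option linter.unusedSectionVars false
set_option linter.unusedVariables false

open CategoryTheory CategoryTheory.Limits Pretriangulated Triangulated Complex ZeroObject
open Pool.Agent.Helper445_GMF Run7.h354.BE

namespace Run7.h253.BE

universe w v u v' u'

section bip

variable {C : Type u} [Category.{v} C] [Preadditive C] [HasBinaryBiproducts C]
  {D : Type u'} [Category.{v'} D] [Preadditive D] [HasBinaryBiproducts D] (F : C ⥤ D) [F.Additive]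

/-- an additive functor preserves sums -/
noncomputable def bip (Y Z : C) : F.obj (Y ⊞ Z) ≅ F.obj Y ⊞ F.obj Z where
  hom := biprod.lift (F.map biprod.fst) (F.map biprod.snd)
  inv := biprod.desc (F.map biprod.inl) (F.map biprod.inr)
  hom_inv_id := by
    rw [biprod.lift_desc, ← F.map_comp, ← F.map_comp, ← F.map_add, biprod.total, F.map_id]
  inv_hom_id := by
    apply biprod.hom_ext'
    · apply biprod.hom_ext
      · rw [biprod.inl_desc_assoc, Category.assoc, biprod.lift_fst, ← F.map_comp,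
          biprod.inl_fst, F.map_id, Category.comp_id, biprod.inl_fst]
      · rw [biprod.inl_desc_assoc, Category.assoc, biprod.lift_snd, ← F.map_comp,
          biprod.inl_snd, F.map_zero, Category.comp_id, biprod.inl_snd]
    · apply biprod.hom_ext
      · rw [biprod.inr_desc_assoc, Category.assoc, biprod.lift_fst, ← F.map_comp,
          biprod.inr_fst, F.map_zero, Category.comp_id, biprod.inr_fst]
      · rw [biprod.inr_desc_assoc, Category.assoc, biprod.lift_snd, ← F.map_comp,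
          biprod.inr_snd, F.map_id, Category.comp_id, biprod.inr_snd]

theorem bip_lift {X Y Z : C} (a : X ⟶ Y) (b : X ⟶ Z) :
    F.map (biprod.lift a b) ≫ (bip F Y Z).hom = biprod.lift (F.map a) (F.map b) := by
  apply biprod.hom_ext
  · rw [Category.assoc, biprod.lift_fst]
    change _ ≫ biprod.lift _ _ ≫ biprod.fst = _
    rw [biprod.lift_fst, ← F.map_comp, biprod.lift_fst]
  · rw [Category.assoc, biprod.lift_snd]
    change _ ≫ biprod.lift _ _ ≫ biprod.snd = _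
    rw [biprod.lift_snd, ← F.map_comp, biprod.lift_snd]

theorem bip_desc {X Y Z : C} (a : Y ⟶ X) (b : Z ⟶ X) :
    (bip F Y Z).hom ≫ biprod.desc (F.map a) (F.map b) = F.map (biprod.desc a b) := by
  rw [← Iso.eq_inv_comp]
  change _ = biprod.desc _ _ ≫ _
  apply biprod.hom_ext'
  · rw [biprod.inl_desc, biprod.inl_desc_assoc, ← F.map_comp, biprod.inl_desc]
  · rw [biprod.inr_desc, biprod.inr_desc_assoc, ← F.map_comp, biprod.inr_desc]

end bip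

section

variable {C : Type u} [Category.{v} C] [Preadditive C] [HasZeroObject C]
  [HasShift C ℤ] [∀ n : ℤ, (shiftFunctor C n).Additive] [Pretriangulated C]

/-- transport of a distinguished triangle along isomorphisms -/
theorem dist_of_iso {X₁ X₂ X₃ T₁ T₂ T₃ : C} (f' : X₁ ⟶ X₂) (g' : X₂ ⟶ X₃) (f : T₁ ⟶ T₂)
    (g : T₂ ⟶ T₃) (h : T₃ ⟶ T₁⟦(1 : ℤ)⟧) (hT : Triangle.mk f g h ∈ distTriang C)
    (e₁ : X₁ ≅ T₁) (e₂ : X₂ ≅ T₂) (e₃ : X₃ ≅ T₃) (h1 : f' ≫ e₂.hom = e₁.hom ≫ f)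
    (h2 : g' ≫ e₃.hom = e₂.hom ≫ g) : ∃ h', Triangle.mk f' g' h' ∈ distTriang C := by
  refine ⟨e₃.hom ≫ h ≫ e₁.inv⟦(1 : ℤ)⟧', isomorphic_distinguished _ hT _ ?_⟩
  refine Triangle.isoMk _ _ e₁ e₂ e₃ h1 h2 ?_
  change (e₃.hom ≫ h ≫ e₁.inv⟦(1 : ℤ)⟧') ≫ e₁.hom⟦(1 : ℤ)⟧' = e₃.hom ≫ h
  rw [Category.assoc, Category.assoc, ← Functor.map_comp, e₁.inv_hom_id,
    CategoryTheory.Functor.map_id, Category.comp_id]

theorem full_dist {P : ObjectProperty C} [P.IsTriangulated] {X₁ X₂ X₃ : P.FullSubcategory}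
    (f' : X₁ ⟶ X₂) (g' : X₂ ⟶ X₃) {T₁ T₂ T₃ : C} (f : T₁ ⟶ T₂)
    (g : T₂ ⟶ T₃) (h : T₃ ⟶ T₁⟦(1 : ℤ)⟧) (hT : Triangle.mk f g h ∈ distTriang C)
    (e₁ : X₁.obj ≅ T₁) (e₂ : X₂.obj ≅ T₂) (e₃ : X₃.obj ≅ T₃) (h1 : f'.hom ≫ e₂.hom = e₁.hom ≫ f)
    (h2 : g'.hom ≫ e₃.hom = e₂.hom ≫ g) :
    ∃ h', Triangle.mk f' g' h' ∈ distTriang P.FullSubcategory := by
  refine ⟨P.fullyFaithfulι.preimage (e₃.hom ≫ h ≫ e₁.inv⟦(1 : ℤ)⟧' ≫
    (P.ι.commShiftIso (1 : ℤ)).inv.app X₁), ?_⟩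
  change P.ι.mapTriangle.obj _ ∈ distTriang C
  refine isomorphic_distinguished _ hT _ (Triangle.isoMk _ _ e₁ e₂ e₃ h1 h2 ?_)
  change (P.ι.map (P.fullyFaithfulι.preimage (e₃.hom ≫ h ≫ e₁.inv⟦(1 : ℤ)⟧' ≫
    (P.ι.commShiftIso (1 : ℤ)).inv.app X₁)) ≫ (P.ι.commShiftIso (1 : ℤ)).hom.app X₁) ≫
      e₁.hom⟦(1 : ℤ)⟧' = e₃.hom ≫ h
  rw [P.fullyFaithfulι.map_preimage]
  simp only [Category.assoc, Iso.inv_hom_id_app_assoc]
  rw [← Functor.map_comp, e₁.inv_hom_id, CategoryTheory.Functor.map_id, Category.comp_id]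

end

theorem bip3 {C : Type u} [Category.{v} C] [Preadditive C] [HasBinaryBiproducts C]
    {D : Type u'} [Category.{v'} D] [Preadditive D] [HasBinaryBiproducts D] (F : C ⥤ D)
    [F.Additive] {Z Z' W : C} (a b : Z ⟶ W) (c : Z' ⟶ W) :
    F.map (biprod.desc (biprod.desc a b) c) =
      (bip F (Z ⊞ Z) Z' ≪≫ biprod.mapIso (bip F Z Z) (Iso.refl _)).hom ≫
        biprod.desc (biprod.desc (F.map a) (F.map b)) (F.map c) := by
  rw [← bip_desc, ← bip_desc, Iso.trans_hom, Category.assoc, biprod.mapIso_hom]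
  congr 1
  apply biprod.hom_ext'
  · rw [biprod.inl_desc, biprod.inl_map_assoc, biprod.inl_desc]
  · rw [biprod.inr_desc, biprod.inr_map_assoc, biprod.inr_desc, Iso.refl_hom, Category.id_comp]

theorem full_hb {C : Type u} [Category.{v} C] [Preadditive C] [HasZeroObject C]
    [HasShift C ℤ] [∀ n : ℤ, (shiftFunctor C n).Additive] [Pretriangulated C]
    {P : ObjectProperty C} [P.IsTriangulated] {Y₁ Y₂ Z Z' W : P.FullSubcategory}
    (a b : Z ⟶ W) (c : Z' ⟶ W)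
    (f : P.ι.obj Y₁ ⊞ P.ι.obj Y₂ ⟶ (P.ι.obj Z ⊞ P.ι.obj Z) ⊞ P.ι.obj Z')
    (h : P.ι.obj W ⟶ (P.ι.obj Y₁ ⊞ P.ι.obj Y₂)⟦(1 : ℤ)⟧)
    (hh : Triangle.mk f (biprod.desc (biprod.desc (P.ι.map a) (P.ι.map b)) (P.ι.map c)) h ∈
      distTriang C) :
    ∃ (f' : Y₁ ⊞ Y₂ ⟶ (Z ⊞ Z) ⊞ Z') (h' : W ⟶ (Y₁ ⊞ Y₂)⟦(1 : ℤ)⟧),
      Triangle.mk f' (biprod.desc (biprod.desc a b) c) h' ∈ distTriang P.FullSubcategory := by
  let e₁ : P.ι.obj (Y₁ ⊞ Y₂) ≅ P.ι.obj Y₁ ⊞ P.ι.obj Y₂ := bip P.ι Y₁ Y₂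
  let e₂ : P.ι.obj ((Z ⊞ Z) ⊞ Z') ≅ (P.ι.obj Z ⊞ P.ι.obj Z) ⊞ P.ι.obj Z' :=
    bip P.ι (Z ⊞ Z) Z' ≪≫ biprod.mapIso (bip P.ι Z Z) (Iso.refl _)
  let f' : Y₁ ⊞ Y₂ ⟶ (Z ⊞ Z) ⊞ Z' := P.fullyFaithfulι.preimage (e₁.hom ≫ f ≫ e₂.inv)
  refine ⟨f', full_dist f' _ f _ h hh e₁ e₂ (Iso.refl _) ?_ ?_⟩
  · change P.ι.map (P.fullyFaithfulι.preimage (e₁.hom ≫ f ≫ e₂.inv)) ≫ e₂.hom = e₁.hom ≫ f
    rw [P.fullyFaithfulι.map_preimage, Category.assoc, Category.assoc, e₂.inv_hom_id,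
      Category.comp_id]
  · exact (Category.comp_id _).trans (bip3 P.ι a b c)

theorem p_EAR : S_EAR.{v, u} := by
  intro C _ _ _ _ _ _ _ P _ _ τ E hP
  have hadd : ∀ a, (E.Φ.obj a).Additive := E.add
  have hadd' : ∀ a, ((resΦ E.Φ P hP).obj a).Additive := fun a =>
    ⟨fun {X Y f g} => ObjectProperty.hom_ext _ (Functor.map_add (E.Φ.obj a))⟩
  refine ⟨{
    Φ := resΦ E.Φ P hP
    lin := ?_
    add := hadd'
    tri := ?_
    comp := fun a b => NatIso.ofComponents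
      (fun X => P.isoMk ((E.comp a b).app X.obj)) (fun {X Y} f => ObjectProperty.hom_ext _
        ((E.comp a b).hom.naturality f.hom))
    comp_nat := ?_
    zero := NatIso.ofComponents (fun X => P.isoMk (E.zero.app X.obj))
      (fun {X Y} f => ObjectProperty.hom_ext _ (E.zero.hom.naturality f.hom))
    kt := ?_
    hb := ?_
    kos := ?_ }, rfl⟩
  · intro a b r f g
    refine NatTrans.ext (funext fun X => ObjectProperty.hom_ext _ ?_)
    exact congrArg (fun n => NatTrans.app n X.obj) (E.lin r f g)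
  · intro a T hT
    obtain ⟨h, hh⟩ := E.tri a _ hT
    exact full_dist _ _ _ _ h hh (Iso.refl _) (Iso.refl _) (Iso.refl _)
      ((Category.comp_id _).trans (Category.id_comp _).symm)
      ((Category.comp_id _).trans (Category.id_comp _).symm)
  · intro a b b' f hf hf' G
    exact ObjectProperty.hom_ext _ (E.comp_nat a b b' f hf hf' G.obj)
  · intro G a γ δ f g hf hg hfg hf1 hg1 hf2 hg2
    obtain ⟨h, hh⟩ := E.kt G.obj a γ δ f g hf hg hfg hf1 hg1 hf2 hg2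
    let Y := ((resΦ E.Φ P hP).obj ⟨a + γ⟩).obj G
    let Z := ((resΦ E.Φ P hP).obj ⟨a + δ⟩).obj G
    exact full_dist _ _ _ _ h hh (Iso.refl _) (bip P.ι Y Z) (Iso.refl _)
      ((bip_lift P.ι _ _).trans (Category.id_comp _).symm)
      ((Category.comp_id _).trans (bip_desc P.ι _ _).symm)
  · intro G a γ₁ γ₂ δ u₁ u₂ w₁ w₂ hu₁ hu₂ hw₁ hw₂ hz h1 h2 h3
    obtain ⟨f, h, hh⟩ := E.hb G.obj a γ₁ γ₂ δ u₁ u₂ w₁ w₂ hu₁ hu₂ hw₁ hw₂ hz h1 h2 h3
    exact full_hb _ _ _ f h hh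
  · intro G a b f g hf hg hfg h0
    have h1 : (E.Φ.map (gm f hf)).app G.obj = 0 := by
      have := congrArg (fun n => P.ι.map n) h0
      exact this.trans (P.ι.map_zero _ _)
    have h2 := E.kos G.obj a b f g hf hg hfg h1
    have h3 : IsIso (P.ι.map (((resΦ E.Φ P hP).map (gm g hg)).app G)) := h2
    exact isIso_of_reflects_iso _ P.ι

end Run7.h253.BE
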