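import Pool.Agent.Run7.h354.BE.Stm2

set_option autoImplicit false
set_option linter.unusedSectionVars false
set_option linter.unusedVariables false

open CategoryTheory CategoryTheory.Limits Pretriangulated Triangulated Complex ZeroObject
open Pool.Agent.Helper445_GMF Run7.h354.BE DerivedCategory

namespace Run7.h253.BE

universe w v u

variable {A : Type u} [Category.{v} A] [Abelian A] [HasDerivedCategory.{w} A]

/-- the projection to the top cohomology -/
theorem top (X : DerivedCategory A) (p : ℤ) (hX : X.IsLE p) :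
    ∃ (M : A) (π : X ⟶ (singleFunctor A p).obj M), IsIso ((homologyFunctor A p).map π) ∧
      ∀ (Z : DerivedCategory A) (_ : Z.IsGE p) (h : X ⟶ Z), ∃ h', h = π ≫ h' := by
  let t := TStructure.t (C := A)
  let Y := (t.truncGE p).obj X
  have hYG : Y.IsGE p := inferInstanceAs (t.IsGE ((t.truncGE p).obj X) p)
  have hYL : Y.IsLE p := by
    have : t.IsLE X p := hX
    exact inferInstanceAs (t.IsLE ((t.truncGE p).obj X) p)
  obtain ⟨M, ⟨e⟩⟩ := Y.exists_iso_singleFunctor_obj_of_isGE_of_isLE p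
  let π₀ : X ⟶ Y := (t.truncGEπ p).app X
  have hd := t.triangleLTGE_distinguished p X
  have hT1 : ((t.triangleLTGE p).obj X).obj₁.IsLE (p - 1) :=
    inferInstanceAs (t.IsLE ((t.triangleLTGE p).obj X).obj₁ (p - 1))
  have z1 : IsZero ((homologyFunctor A p).obj ((t.triangleLTGE p).obj X).obj₁) :=
    isZero_of_isLE _ (p - 1) p (by lia)
  have z2 : IsZero ((homologyFunctor A (p + 1)).obj ((t.triangleLTGE p).obj X).obj₁) :=
    isZero_of_isLE _ (p - 1) (p + 1) (by lia)
  have hm : Mono ((homologyFunctor A p).map π₀) :=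
    (HomologySequence.mono_homologyMap_mor₂_iff _ hd p).2 (z1.eq_of_src _ _)
  have he : Epi ((homologyFunctor A p).map π₀) :=
    (HomologySequence.epi_homologyMap_mor₂_iff _ hd p (p + 1) rfl).2 (z2.eq_of_tgt _ _)
  have hi : IsIso ((homologyFunctor A p).map π₀) := isIso_of_mono_of_epi _
  refine ⟨M, π₀ ≫ e.hom, ?_, fun Z hZ h => ?_⟩
  · rw [Functor.map_comp]; infer_instance
  · have : t.IsGE Z p := hZ
    refine ⟨e.inv ≫ t.descTruncGE h p, ?_⟩
    rw [Category.assoc, e.hom_inv_id_assoc, t.π_descTruncGE]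

/-- the inclusion of the bottom cohomology -/
theorem bot (Y : DerivedCategory A) (q : ℤ) (hY : Y.IsGE q) :
    ∃ (N : A) (j : (singleFunctor A q).obj N ⟶ Y), IsIso ((homologyFunctor A q).map j) ∧
      ∀ (Z : DerivedCategory A) (_ : Z.IsLE q) (h : Z ⟶ Y), ∃ h', h = h' ≫ j := by
  let t := TStructure.t (C := A)
  let X := (t.truncLT (q + 1)).obj Y
  have hXL : X.IsLE q := inferInstanceAs (t.IsLE ((t.truncLT (q + 1)).obj Y) q)
  have hXG : X.IsGE q := by
    have : t.IsGE Y q := hY
    exact inferInstanceAs (t.IsGE ((t.truncLT (q + 1)).obj Y) q)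
  obtain ⟨N, ⟨e⟩⟩ := X.exists_iso_singleFunctor_obj_of_isGE_of_isLE q
  let j₀ : X ⟶ Y := (t.truncLTι (q + 1)).app Y
  have hd := t.triangleLTGE_distinguished (q + 1) Y
  have hT3 : ((t.triangleLTGE (q + 1)).obj Y).obj₃.IsGE (q + 1) :=
    inferInstanceAs (t.IsGE ((t.triangleLTGE (q + 1)).obj Y).obj₃ (q + 1))
  have z1 : IsZero ((homologyFunctor A q).obj ((t.triangleLTGE (q + 1)).obj Y).obj₃) :=
    isZero_of_isGE _ (q + 1) q (by lia)
  have z2 : IsZero ((homologyFunctor A (q - 1)).obj ((t.triangleLTGE (q + 1)).obj Y).obj₃) :=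
    isZero_of_isGE _ (q + 1) (q - 1) (by lia)
  have he : Epi ((homologyFunctor A q).map j₀) :=
    (HomologySequence.epi_homologyMap_mor₁_iff _ hd q).2 (z1.eq_of_tgt _ _)
  have hm : Mono ((homologyFunctor A q).map j₀) :=
    (HomologySequence.mono_homologyMap_mor₁_iff _ hd (q - 1) q (by lia)).2 (z2.eq_of_src _ _)
  have hi : IsIso ((homologyFunctor A q).map j₀) := isIso_of_mono_of_epi _
  refine ⟨N, e.inv ≫ j₀, ?_, fun Z hZ h => ?_⟩
  · rw [Functor.map_comp]; infer_instance
  · have : t.IsLE Z q := hZ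
    refine ⟨t.liftTruncLT h q (q + 1) rfl ≫ e.hom, ?_⟩
    rw [Category.assoc, e.hom_inv_id_assoc, t.liftTruncLT_ι]

/-- `single p O` is a shift of `single 0 O` -/
noncomputable def shIso (p : ℤ) (O : A) :
    ((singleFunctor A 0).obj O)⟦-p⟧ ≅ (singleFunctor A p).obj O :=
  ((singleFunctors A).shiftIso (-p) p 0 (by lia)).app O

theorem p_PTA : S_PTA.{w, v, u} := by
  intro A _ _ _ O hO X Y m n hX hY hXO hOY f g hf hg hXn hYn hfg
  -- `X` is in degrees `≤ 0`
  have hX0 : ∀ k : ℕ, X.IsLE k → X.IsLE 0 := by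
    intro k
    induction k with
    | zero => intro h; exact h
    | succ k ih =>
      intro h
      apply ih
      rw [isLE_iff]
      intro i hi
      by_contra hne
      have hik : i = ((k + 1 : ℕ) : ℤ) := by
        by_contra hik
        exact hne (isZero_of_isLE X ((k + 1 : ℕ) : ℤ) i (by push_cast at hik ⊢; lia))
      subst hik
      obtain ⟨ψ, hψ⟩ := hXO _ hne
      obtain ⟨M, π, hπ, _⟩ := top X ((k + 1 : ℕ) : ℤ) h
      let e₁ := (asIso ((homologyFunctor A ((k + 1 : ℕ) : ℤ)).map π))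
      let e₂ := (singleFunctorCompHomologyFunctorIso A ((k + 1 : ℕ) : ℤ)).app M
      let ψ' : M ⟶ O := e₂.inv ≫ e₁.inv ≫ ψ
      have hψ' : ψ' ≠ 0 := fun h0 => hψ (by
        have h1 : ψ = e₁.hom ≫ e₂.hom ≫ ψ' := by simp [ψ']
        rw [h1, h0, comp_zero, comp_zero])
      have hk := hXn ((k + 1 : ℕ) : ℤ) (by positivity)
        (π ≫ (singleFunctor A _).map ψ' ≫ (shIso ((k + 1 : ℕ) : ℤ) O).inv)
      have h2 : π ≫ (singleFunctor A ((k + 1 : ℕ) : ℤ)).map ψ' = 0 := by
        rw [← cancel_mono (shIso ((k + 1 : ℕ) : ℤ) O).inv, zero_comp, Category.assoc]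
        exact hk
      have h3 : (homologyFunctor A ((k + 1 : ℕ) : ℤ)).map
          ((singleFunctor A ((k + 1 : ℕ) : ℤ)).map ψ') = 0 := by
        rw [← cancel_epi ((homologyFunctor A ((k + 1 : ℕ) : ℤ)).map π), ← Functor.map_comp, h2,
          Functor.map_zero, comp_zero]
      apply hψ'
      have h4 := (singleFunctorCompHomologyFunctorIso A ((k + 1 : ℕ) : ℤ)).hom.naturality ψ'
      rw [Functor.comp_map, h3, zero_comp, Functor.id_map] at h4
      rw [← cancel_epi ((singleFunctorCompHomologyFunctorIso A ((k + 1 : ℕ) : ℤ)).hom.app M),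
        comp_zero]
      exact h4.symm
  have hXle : X.IsLE 0 := by
    refine hX0 m.toNat ?_
    have : (TStructure.t (C := A)).IsLE X m := hX
    exact (TStructure.t (C := A)).isLE_of_le X m _ (Int.self_le_toNat m)
  -- `Y` is in degrees `≥ 0`
  have hY0 : ∀ k : ℕ, Y.IsGE (-(k : ℤ)) → Y.IsGE 0 := by
    intro k
    induction k with
    | zero => intro h; simpa using h
    | succ k ih =>
      intro h
      apply ih
      rw [isGE_iff]
      intro i hi
      by_contra hne
      have hik : i = -((k + 1 : ℕ) : ℤ) := by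
        by_contra hik
        exact hne (isZero_of_isGE Y (-((k + 1 : ℕ) : ℤ)) i (by push_cast at hik ⊢; lia))
      subst hik
      obtain ⟨ψ, hψ⟩ := hOY _ hne
      obtain ⟨N, j, hj, _⟩ := bot Y (-((k + 1 : ℕ) : ℤ)) h
      let e₁ := (asIso ((homologyFunctor A (-((k + 1 : ℕ) : ℤ))).map j))
      let e₂ := (singleFunctorCompHomologyFunctorIso A (-((k + 1 : ℕ) : ℤ))).app N
      let ψ' : O ⟶ N := ψ ≫ e₁.inv ≫ e₂.hom
      have hψ' : ψ' ≠ 0 := fun h0 => hψ (by
        have h1 : ψ = ψ' ≫ e₂.inv ≫ e₁.hom := by simp [ψ']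
        rw [h1, h0, zero_comp])
      let s : ((singleFunctor A 0).obj O)⟦((k + 1 : ℕ) : ℤ)⟧ ≅
        (singleFunctor A (-((k + 1 : ℕ) : ℤ))).obj O :=
        ((singleFunctors A).shiftIso ((k + 1 : ℕ) : ℤ) (-((k + 1 : ℕ) : ℤ)) 0 (by lia)).app O
      have hk := hYn ((k + 1 : ℕ) : ℤ) (by positivity)
        (s.hom ≫ (singleFunctor A _).map ψ' ≫ j)
      have h2 : (singleFunctor A (-((k + 1 : ℕ) : ℤ))).map ψ' ≫ j = 0 := by
        rw [← cancel_epi s.hom, comp_zero]
        exact hk
      have h3 : (homologyFunctor A (-((k + 1 : ℕ) : ℤ))).map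
          ((singleFunctor A (-((k + 1 : ℕ) : ℤ))).map ψ') = 0 := by
        rw [← cancel_mono ((homologyFunctor A (-((k + 1 : ℕ) : ℤ))).map j), ← Functor.map_comp, h2,
          Functor.map_zero, zero_comp]
      apply hψ'
      have h4 := (singleFunctorCompHomologyFunctorIso A (-((k + 1 : ℕ) : ℤ))).hom.naturality ψ'
      rw [Functor.comp_map, h3, zero_comp, Functor.id_map] at h4
      rw [← cancel_epi ((singleFunctorCompHomologyFunctorIso A (-((k + 1 : ℕ) : ℤ))).hom.app O),
        comp_zero]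
      exact h4.symm
  have hYge : Y.IsGE 0 := by
    refine hY0 (-n).toNat ?_
    have : (TStructure.t (C := A)).IsGE Y n := hY
    exact (TStructure.t (C := A)).isGE_of_ge Y _ n (by have := Int.self_le_toNat (-n); lia)
  -- `H⁰ f` is epi
  obtain ⟨M, π, hπ, hπu⟩ := top X 0 hXle
  obtain ⟨N, j, hj, hju⟩ := bot Y 0 hYge
  obtain ⟨f', hf'⟩ := hπu _ inferInstance f
  obtain ⟨g', hg'⟩ := hju _ inferInstance g
  obtain ⟨ψ, rfl⟩ := (singleFunctor A 0).map_surjective f'
  obtain ⟨χ, rfl⟩ := (singleFunctor A 0).map_surjective g'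
  have hψ : ψ ≠ 0 := by
    rintro rfl
    rw [Functor.map_zero, comp_zero] at hf'
    exact hf hf'
  have hχ : χ ≠ 0 := by
    rintro rfl
    rw [Functor.map_zero, zero_comp] at hg'
    exact hg hg'
  have e1 : Epi ψ := epi_of_nonzero_to_simple hψ
  have m1 : Mono χ := mono_of_nonzero_from_simple hχ
  have hne : ψ ≫ χ ≠ 0 := by
    intro h0
    apply hχ
    rw [← cancel_epi ψ, h0, comp_zero]
  rw [hf', hg', Category.assoc, ← Functor.map_comp_assoc] at hfg
  have h5 : (homologyFunctor A 0).map ((singleFunctor A 0).map (ψ ≫ χ)) = 0 := by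
    rw [← cancel_epi ((homologyFunctor A 0).map π),
      ← cancel_mono ((homologyFunctor A 0).map j), Category.assoc, ← Functor.map_comp,
      ← Functor.map_comp, hfg, Functor.map_zero, comp_zero, zero_comp]
  apply hne
  have h6 := (singleFunctorCompHomologyFunctorIso A 0).hom.naturality (ψ ≫ χ)
  rw [Functor.comp_map, h5, zero_comp, Functor.id_map] at h6
  rw [← cancel_epi ((singleFunctorCompHomologyFunctorIso A 0).hom.app M), comp_zero]
  exact h6.symm

end Run7.h253.BE
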